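import Pool.Agent.NPG.Stmts

/-!
# Squad NPG, row COV (uses STO): a locally finite closed cover with locally constant centres
-/

set_option autoImplicit false

open Set Topology

namespace Pool.Agent.NPG.H61

open Pool.Agent.LSG Pool.Agent.NPG

theorem cov (hSTO : StoStmt) : CovStmt := by
  classical
  intro Q I _ _ U hUo hU
  obtain ⟨ψ, h0, hsub, huniq, hlf, hex⟩ := hSTO Q I U hUo hU
  set s : ℕ → Q → ℝ := fun c q => ∑ᶠ i, ψ c i q with hs
  have hlfc : ∀ c, LocallyFinite fun i : I => Function.support (ψ c i) := by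
    intro c
    have h1 := hlf.comp_injective (g := fun i : I => (c, i)) (fun i j hij => (Prod.mk.inj hij).2)
    exact h1
  have hscont : ∀ c, Continuous (s c) := fun c =>
    continuous_finsum (fun i => (ψ c i).continuous) (hlfc c)
  have hs1 : ∀ c i q, ψ c i q ≠ 0 → s c q = ψ c i q := by
    intro c i q hi
    show ∑ᶠ i, ψ c i q = ψ c i q
    refine finsum_eq_single _ i (fun j hj => ?_)
    by_contra hne
    exact hj (huniq c j i q hne hi)
  have hs0 : ∀ c q, 0 ≤ s c q := fun c q => finsum_nonneg (fun i => h0 c i q)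
  have hs2 : ∀ c q, s c q ≠ 0 → ∃ i, ψ c i q ≠ 0 := by
    intro c q hne
    by_contra hcon
    push Not at hcon
    apply hne
    show ∑ᶠ i, ψ c i q = 0
    rw [finsum_congr hcon, finsum_zero]
  have hpos : ∀ q, ∃ c, 0 < s c q := by
    intro q
    obtain ⟨c, i, hi⟩ := hex q
    refine ⟨c, lt_of_le_of_ne (hs0 c q) ?_⟩
    rw [hs1 c i q hi]
    exact Ne.symm hi
  set D : ℕ → Set Q := fun c => {q | ∀ c', s c' q ≤ s c q} with hD
  have hDpos : ∀ c, ∀ q ∈ D c, ∃ i, ψ c i q ≠ 0 := by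
    intro c q hq
    obtain ⟨c₀, h1⟩ := hpos q
    exact hs2 c q (ne_of_gt (lt_of_lt_of_le h1 (hq c₀)))
  set ξ : ℕ → Q → I := fun c q =>
    if h : ∃ i, ψ c i q ≠ 0 then h.choose else (hU q).choose with hξ
  have hξ1 : ∀ c q, (∃ i, ψ c i q ≠ 0) → ψ c (ξ c q) q ≠ 0 := by
    intro c q h
    simp only [hξ]
    rw [dif_pos h]
    exact h.choose_spec
  refine ⟨D, ξ, ?_, ?_, ?_, ?_, ?_⟩
  · intro c
    have h1 : D c = ⋂ c', {q | s c' q ≤ s c q} := by
      ext q
      simp only [hD, Set.mem_iInter]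
      exact Iff.rfl
    rw [h1]
    exact isClosed_iInter (fun c' => isClosed_le (hscont c') (hscont c))
  · intro q
    obtain ⟨W, hW, hfin⟩ := hlf q
    refine ⟨W, hW, (hfin.image Prod.fst).subset ?_⟩
    rintro c ⟨q', hq', hq'W⟩
    obtain ⟨i, hi⟩ := hDpos c q' hq'
    exact ⟨(c, i), ⟨q', hi, hq'W⟩, rfl⟩
  · intro q
    have hfin : {c | s c q ≠ 0}.Finite := by
      refine ((hlf.point_finite q).image Prod.fst).subset ?_
      intro c hc
      obtain ⟨i, hi⟩ := hs2 c q hc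
      exact ⟨(c, i), hi, rfl⟩
    obtain ⟨c₀, hc₀⟩ := hpos q
    obtain ⟨c, hc, hmax⟩ := Set.exists_max_image {c | s c q ≠ 0} (fun c => s c q) hfin
      ⟨c₀, ne_of_gt hc₀⟩
    refine ⟨c, fun c' => ?_⟩
    by_cases h : s c' q = 0
    · rw [h]
      exact hs0 c q
    · exact hmax c' h
  · intro c q hq
    exact hsub c _ q (hξ1 c q (hDpos c q hq))
  · intro c q hq
    have h1 := hξ1 c q (hDpos c q hq)
    have h2 : ∀ᶠ q' in nhds q, ψ c (ξ c q) q' ≠ 0 :=
      (ψ c (ξ c q)).continuous.continuousAt.eventually_ne h1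
    filter_upwards [h2] with q' hq' _
    exact huniq c _ _ q' (hξ1 c q' ⟨_, hq'⟩) hq'

end Pool.Agent.NPG.H61
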